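import Pool.Agent.Helper14.AY.GoalsA

/-! # AY-CVD: integration by parts -/

open Complex Metric Set Filter Topology MeasureTheory
open scoped ContDiff ComplexConjugate ComplexOrder Manifold Matrix

namespace Pool.Agent.Helper90.AY

open Pool.Agent.Helper95.Lin Pool.Agent.Helper16.Abund Pool.Agent.Helper92.Orb Pool.Agent.Helper10.SP
  Pool.Agent.Helper95.RK Pool.Agent.Helper57.HS Pool.Agent.Helper14.AY

variable {n : ℕ}

/-- The derivative of `y ↦ f (x - r • y)`. -/
theorem hasFDerivAt_scale {f : Cn n → ℝ} (hf : Differentiable ℝ f) (r : ℝ) (x y : Cn n) :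
    HasFDerivAt (fun y => f (x - r • y))
      ((fderiv ℝ f (x - r • y)).comp (-(r • ContinuousLinearMap.id ℝ (Cn n)))) y := by
  have h1 : HasFDerivAt (fun y : Cn n => x - r • y) (-(r • ContinuousLinearMap.id ℝ (Cn n))) y :=
    ((hasFDerivAt_id y).const_smul r).const_sub x
  exact (hf _).hasFDerivAt.comp y h1

/-- CVD. -/
theorem cvd : S_CVD := by
  intro n k f hk hf v r x hr
  have hfd : Differentiable ℝ f := hf.differentiable (by simp)
  have hkd : Differentiable ℝ k := hk.1.differentiable (by simp)
  have hF : ∀ y, fderiv ℝ (fun y => f (x - r • y)) y v = -(r * fderiv ℝ f (x - r • y) v) := by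
    intro y
    rw [(hasFDerivAt_scale hfd r x y).fderiv]
    simp
  have hcs : Continuous fun y : Cn n => x - r • y := by fun_prop
  have hc1 : Continuous fun y => fderiv ℝ f (x - r • y) v :=
    ((hf.continuous_fderiv (by simp)).comp hcs).clm_apply continuous_const
  have hc2 : Continuous fun y => fderiv ℝ k y v :=
    (hk.1.continuous_fderiv (by simp)).clm_apply continuous_const
  have hcs2 : HasCompactSupport fun y => fderiv ℝ k y v := by
    refine (hk.2.fderiv ℝ).mono ?_
    intro y hy h0
    apply hy
    change fderiv ℝ k y v = 0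
    rw [h0]
    rfl
  have hc0 : Continuous fun y => f (x - r • y) := hfd.continuous.comp hcs
  have i1 : Integrable fun y => fderiv ℝ (fun y => f (x - r • y)) y v * k y := by
    simp only [hF]
    exact (((continuous_const.mul hc1).neg).mul hkd.continuous).integrable_of_hasCompactSupport
      hk.2.mul_left
  have i2 : Integrable fun y => f (x - r • y) * fderiv ℝ k y v :=
    (hc0.mul hc2).integrable_of_hasCompactSupport hcs2.mul_left
  have i3 : Integrable fun y => f (x - r • y) * k y :=
    (hc0.mul hkd.continuous).integrable_of_hasCompactSupport hk.2.mul_left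
  have h1 := integral_mul_fderiv_eq_neg_fderiv_mul_of_integrable i1 i2 i3
    (fun y _ => (hasFDerivAt_scale hfd r x y).differentiableAt) (fun y _ => hkd y)
  unfold Cv
  rw [h1, ← integral_const_mul, ← integral_neg]
  refine integral_congr_ae (Eventually.of_forall fun y => ?_)
  change r * (fderiv ℝ f (x - r • y) v * k y) = -(fderiv ℝ (fun y => f (x - r • y)) y v * k y)
  rw [hF]
  ring

end Pool.Agent.Helper90.AY
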