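import Pool.Agent.Helper14.AY.GoalsB
import Pool.Agent.Helper29.RK.LDET

/-! # AY-LGJ: the derivative of `log det` -/

open Complex Metric Set Filter Topology MeasureTheory
open scoped ContDiff ComplexConjugate ComplexOrder Manifold Matrix

namespace Pool.Agent.Helper90.AY

open Pool.Agent.Helper95.Lin Pool.Agent.Helper16.Abund Pool.Agent.Helper92.Orb Pool.Agent.Helper10.SP
  Pool.Agent.Helper95.RK Pool.Agent.Helper57.HS Pool.Agent.Helper14.AY

/-- The determinant of a positive definite matrix is a positive real number. -/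
theorem det_pd {k : ℕ} {A : Matrix (Fin k) (Fin k) ℂ} (hA : A.PosDef) :
    0 < A.det.re ∧ A.det.im = 0 := by
  have h := hA.det_pos
  rw [Complex.pos_iff] at h
  exact ⟨h.1, h.2.symm⟩

/-- LGJ. -/
theorem lgj : S_LGJ := by
  intro n D K hD hpd h x hx v
  have hda : ∀ p q, DifferentiableAt ℝ (fun y => K y p q) x := fun p q =>
    ((h p q).contDiffAt (hD.mem_nhds hx)).differentiableAt (by simp)
  obtain ⟨h1, h2⟩ := Pool.Agent.Helper29.RK.fderiv_det hda v
  obtain ⟨F, hF⟩ : ∃ F, F = fderiv ℝ (fun y => (K y).det) x := ⟨_, rfl⟩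
  have h3 : HasFDerivAt (fun y => (K y).det) F x := by rw [hF]; exact h1.hasFDerivAt
  have h4 : HasFDerivAt (fun y => (K y).det.re) (reCLM.comp F) x :=
    reCLM.hasFDerivAt.comp x h3
  have h5 : HasFDerivAt (fun y => (K y).det.im) (imCLM.comp F) x :=
    imCLM.hasFDerivAt.comp x h3
  have h6 : (F v).im = 0 := by
    have e : (fun y => (K y).det.im) =ᶠ[𝓝 x] fun _ => (0 : ℝ) := by
      filter_upwards [hD.mem_nhds hx] with y hy
      exact (det_pd (hpd y hy)).2
    have h7 : HasFDerivAt (fun y => (K y).det.im) (0 : Cn n →L[ℝ] ℝ) x :=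
      (hasFDerivAt_const (0 : ℝ) x).congr_of_eventuallyEq e
    have h8 := congrArg (fun L : Cn n →L[ℝ] ℝ => L v) (h5.unique h7)
    simpa using h8
  have h7 : HasFDerivAt (fun y => Real.log (K y).det.re) ((K x).det.re⁻¹ • reCLM.comp F) x :=
    h4.log (det_pd (hpd x hx)).1.ne'
  rw [h7.fderiv]
  have h9 : (((K x).det.re : ℝ) : ℂ) = (K x).det := by
    apply Complex.ext
    · simp
    · simp [(det_pd (hpd x hx)).2]
  have h10 : (((F v).re : ℝ) : ℂ) = F v := by
    apply Complex.ext
    · simp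
    · simp [h6]
  have h11 : ((((K x).det.re⁻¹ • reCLM.comp F) v : ℝ) : ℂ) = (K x).det⁻¹ * F v := by
    rw [← h9, ← h10]
    simp
  have h12 : (K x).det⁻¹ * F v =
      ((K x)⁻¹ * Matrix.of fun p q => fderiv ℝ (fun y => K y p q) x v).trace := by
    rw [hF, h2, Matrix.inv_def, Ring.inverse_eq_inv', Matrix.smul_mul, Matrix.trace_smul,
      smul_eq_mul]
  rw [h11, h12]
  unfold Matrix.trace
  refine Finset.sum_congr rfl fun i _ => ?_
  rw [Matrix.diag_apply, Matrix.mul_apply]
  rfl

end Pool.Agent.Helper90.AY
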