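import Pool.Agent.Helper14.AY.GoalsA

/-! # AY-LMD: the Levi matrix in terms of the second derivative -/

open Complex Metric Set Filter Topology MeasureTheory
open scoped ContDiff ComplexConjugate ComplexOrder Manifold Matrix

namespace Pool.Agent.Helper90.AY

open Pool.Agent.Helper95.Lin Pool.Agent.Helper16.Abund Pool.Agent.Helper92.Orb Pool.Agent.Helper10.SP
  Pool.Agent.Helper95.RK Pool.Agent.Helper57.HS Pool.Agent.Helper14.AY

variable {n : ℕ}

/-- The derivative of `y ↦ Dw(y) v`. -/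
theorem hasFDerivAt_dir {w : Cn n → ℝ} {x : Cn n} (h : ContDiffAt ℝ 2 w x) (v : Cn n) :
    HasFDerivAt (fun y => fderiv ℝ w y v) ((D2 w x).flip v) x := by
  have h1 : DifferentiableAt ℝ (fderiv ℝ w) x :=
    (h.fderiv_right (m := 1) (by norm_num)).differentiableAt (by simp)
  have h2 := h1.hasFDerivAt.clm_apply (hasFDerivAt_const v x)
  have h3 : (fderiv ℝ w x).comp (0 : Cn n →L[ℝ] Cn n) + (fderiv ℝ (fderiv ℝ w) x).flip v =
      (D2 w x).flip v := by
    rw [ContinuousLinearMap.comp_zero, zero_add]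
    rfl
  rw [← h3]
  exact h2

theorem D2_hess {w : Cn n → ℝ} {x : Cn n} (h : ContDiffAt ℝ 2 w x) (u v : Cn n) :
    D2 w x u v = hess w x u v := by
  unfold hess
  rw [(hasFDerivAt_dir h v).fderiv]
  rfl

theorem D2_symm {w : Cn n → ℝ} {x : Cn n} (h : ContDiffAt ℝ 2 w x) (u v : Cn n) :
    D2 w x u v = D2 w x v u :=
  (h.isSymmSndFDerivAt (by simp)) u v

/-- `cdb k w` near `x`. -/
theorem cdb_near {w : Cn n → ℝ} {x : Cn n} (h : ContDiffAt ℝ 2 w x) (k : Fin n) :
    (cdb k fun y => ((w y : ℝ) : ℂ)) =ᶠ[𝓝 x] fun y =>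
      ((fderiv ℝ w y (Pi.single k 1) : ℝ) : ℂ) + I * ((fderiv ℝ w y (Pi.single k I) : ℝ) : ℂ) := by
  have h1 : ∀ᶠ y in 𝓝 x, ContDiffAt ℝ 2 w y := h.eventually (by simp)
  filter_upwards [h1] with y hy
  have h2 : HasFDerivAt (fun y => ((w y : ℝ) : ℂ)) (Complex.ofRealCLM.comp (fderiv ℝ w y)) y :=
    Complex.ofRealCLM.hasFDerivAt.comp y (hy.differentiableAt (by simp)).hasFDerivAt
  unfold cdb
  rw [h2.fderiv]
  rfl

theorem LM_D2 {w : Cn n → ℝ} {x : Cn n} (h : ContDiffAt ℝ 2 w x) (j k : Fin n) :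
    LM w x j k =
      ((D2 w x (Pi.single j 1) (Pi.single k 1) + D2 w x (Pi.single j I) (Pi.single k I) : ℝ) : ℂ) +
      I * ((D2 w x (Pi.single j 1) (Pi.single k I) -
        D2 w x (Pi.single j I) (Pi.single k 1) : ℝ) : ℂ) := by
  unfold LM
  rw [Matrix.of_apply]
  unfold cd
  rw [(cdb_near h k).fderiv_eq]
  have h1 := Complex.ofRealCLM.hasFDerivAt.comp x (hasFDerivAt_dir h (Pi.single k 1))
  have h2 := (Complex.ofRealCLM.hasFDerivAt.comp x (hasFDerivAt_dir h (Pi.single k I))).const_mul I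
  have h3 : HasFDerivAt (fun y => ((fderiv ℝ w y (Pi.single k 1) : ℝ) : ℂ) +
      I * ((fderiv ℝ w y (Pi.single k I) : ℝ) : ℂ)) _ x := h1.add h2
  rw [h3.fderiv]
  simp only [_root_.add_apply, _root_.smul_apply, ContinuousLinearMap.comp_apply,
    ContinuousLinearMap.flip_apply, Complex.ofRealCLM_apply, smul_eq_mul]
  push_cast
  ring_nf
  rw [Complex.I_sq]
  ring

/-- LMD. -/
theorem lmd : S_LMD := by
  intro n w x h
  refine ⟨fun u v => ⟨D2_hess h u v, D2_symm h u v⟩, fun j k => LM_D2 h j k, ?_, ?_⟩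
  · ext j k
    rw [Matrix.conjTranspose_apply, LM_D2 h, LM_D2 h, Complex.star_def, map_add, map_mul,
      Complex.conj_ofReal, Complex.conj_ofReal, Complex.conj_I,
      D2_symm h (Pi.single k 1) (Pi.single j 1), D2_symm h (Pi.single k I) (Pi.single j I),
      D2_symm h (Pi.single k 1) (Pi.single j I), D2_symm h (Pi.single k I) (Pi.single j 1)]
    push_cast
    ring
  · unfold Matrix.trace Lap
    rw [Fintype.sum_prod_type]
    push_cast
    refine Finset.sum_congr rfl fun j _ => ?_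
    rw [Matrix.diag_apply, LM_D2 h, Fintype.sum_bool, ← D2_hess h, ← D2_hess h,
      D2_symm h (Pi.single j I) (Pi.single j 1), sub_self, Complex.ofReal_zero, mul_zero, add_zero]
    unfold rb
    simp only [if_true, Bool.false_eq_true, if_false]
    push_cast
    ring

end Pool.Agent.Helper90.AY
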